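import Mathlib

/-!
# An internal-variable-free normal logic program with no L-stable model

The program (constant `0`, unary function symbol `s`, unary predicates `c, d, r, q, z`) is

* `c(X) ← ~d(X)`, `d(X) ← ~c(X)`, `d(X) ← r(X)`,
* `r(s(X)) ← r(X)`, `r(s(X)) ← c(X)`,
* `q(X) ← q(s(X))`, `q(X) ← c(X)`,
* `z(X) ← ~z(X), ~q(X)`.

Every stable partial model `I` admits a stable partial model `J` with strictly fewer undefined
atoms.
-/

namespace Pool.Agent.Results.MP_718be6_lc.NoLStable

open FirstOrder FirstOrder.Language

/-- Atoms `p(t₁, …, t_k)` over the language `L` with variables from `V`.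
Ground atoms are the case `V = Empty`. -/
structure Atom (L : FirstOrder.Language.{0, 0}) (V : Type) where
  /-- the number of arguments -/
  ar : ℕ
  /-- the predicate symbol -/
  pred : L.Relations ar
  /-- the arguments -/
  args : Fin ar → L.Term V

/-- The variables of an atom. -/
def Atom.vars {L : FirstOrder.Language.{0, 0}} (a : Atom L ℕ) : Set ℕ :=
  {x | ∃ i, x ∈ (a.args i).varFinset}

/-- Substitution in an atom. -/
def Atom.subst {L : FirstOrder.Language.{0, 0}} {V W : Type} (a : Atom L V)
    (θ : V → L.Term W) : Atom L W :=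
  ⟨a.ar, a.pred, fun i => (a.args i).subst θ⟩

/-- Rules `head ← pos₁, …, pos_m, ~neg₁, …, ~neg_k`. -/
structure Rule (L : FirstOrder.Language.{0, 0}) (V : Type) where
  /-- the head -/
  head : Atom L V
  /-- the atoms occurring positively in the body -/
  pos : List (Atom L V)
  /-- the atoms occurring under default negation in the body -/
  neg : List (Atom L V)

/-- Substitution in a rule. -/
def Rule.subst {L : FirstOrder.Language.{0, 0}} {V W : Type} (r : Rule L V)
    (θ : V → L.Term W) : Rule L W :=
  ⟨r.head.subst θ, r.pos.map fun a => a.subst θ, r.neg.map fun a => a.subst θ⟩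

/-- A rule is internal-variable-free if each variable of its body occurs in its head. -/
def Rule.InternalVariableFree {L : FirstOrder.Language.{0, 0}} (r : Rule L ℕ) : Prop :=
  (∀ a ∈ r.pos, a.vars ⊆ r.head.vars) ∧ ∀ a ∈ r.neg, a.vars ⊆ r.head.vars

/-- The set of ground instances of the rules of `P`. -/
def ground {L : FirstOrder.Language.{0, 0}} (P : Set (Rule L ℕ)) : Set (Rule L Empty) :=
  {g | ∃ r ∈ P, ∃ θ : ℕ → L.Term Empty, g = r.subst θ}

/-- Three-valued interpretations of the Herbrand base. The truth values are the elements of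
`Fin 3`: `0` is false, `1` is undefined, `2` is true, in the truth order `0 < 1 < 2`. -/
abbrev Interp (L : FirstOrder.Language.{0, 0}) : Type := Atom L Empty → Fin 3

/-- Rules of the reduct: a head and a list of body elements, each of which is a ground atom
(`some a`) or the special atom `u` (`none`), which always takes the value undefined. -/
abbrev PosRule (L : FirstOrder.Language.{0, 0}) : Type :=
  Atom L Empty × List (Option (Atom L Empty))

/-- The value of a body of a rule of the reduct: the minimum of the values of its elements,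
and `2` (true) for the empty body. -/
def bodyValue {L : FirstOrder.Language.{0, 0}} (J : Interp L)
    (b : List (Option (Atom L Empty))) : Fin 3 :=
  (b.map fun o => o.elim 1 J).foldr min 2

/-- The reduct `P^I`: rules with some `~b`, `I b` true, are deleted; remaining literals `~b` with
`I b` false are deleted; all remaining `~b` are replaced by the special atom `u`. -/
def reduct {L : FirstOrder.Language.{0, 0}} (P : Set (Rule L ℕ)) (I : Interp L) :
    Set (PosRule L) :=
  {q | ∃ g ∈ ground P, (∀ b ∈ g.neg, I b ≠ 2) ∧
    q = (g.head, g.pos.map some ++ (g.neg.filter fun b => I b ≠ 0).map fun _ => none)}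

/-- Three-valued models of a positive program. -/
def IsModel {L : FirstOrder.Language.{0, 0}} (Q : Set (PosRule L)) (J : Interp L) : Prop :=
  ∀ q ∈ Q, bodyValue J q.2 ≤ J q.1

/-- `I` is a stable partial model of `P`: it is the least three-valued model of `P^I`. -/
def IsStablePartial {L : FirstOrder.Language.{0, 0}} (P : Set (Rule L ℕ)) (I : Interp L) : Prop :=
  IsLeast {J | IsModel (reduct P I) J} I

/-- The set of undefined atoms. -/
def undef {L : FirstOrder.Language.{0, 0}} (I : Interp L) : Set (Atom L Empty) :=
  {a | I a = 1}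

/-- `I` is an L-stable model of `P`: a stable partial model with minimal set of undefined
atoms. -/
def IsLStable {L : FirstOrder.Language.{0, 0}} (P : Set (Rule L ℕ)) (I : Interp L) : Prop :=
  IsStablePartial P I ∧ ∀ J, IsStablePartial P J → ¬ undef J ⊂ undef I

section General

variable {L : FirstOrder.Language.{0, 0}}

theorem bodyValue_append (J : Interp L) (b b' : List (Option (Atom L Empty))) :
    bodyValue J (b ++ b') = min (bodyValue J b) (bodyValue J b') := by
  induction b with
  | nil =>
    have : ∀ x : Fin 3, x = min 2 x := by decide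
    simpa [bodyValue] using this _
  | cons x b ih =>
    simp only [bodyValue, List.cons_append, List.map_cons, List.foldr_cons] at ih ⊢
    rw [ih, min_assoc]

/-- The value of the negative part of a body. -/
def negValue (I : Interp L) (l : List (Atom L Empty)) : Fin 3 :=
  (l.map fun b => (I b).rev).foldr min 2

theorem negValue_eq (I J : Interp L) (l : List (Atom L Empty)) (h : ∀ b ∈ l, I b ≠ 2) :
    bodyValue J ((l.filter fun b => I b ≠ 0).map fun _ => none) = negValue I l := by
  induction l with
  | nil => rfl
  | cons x l ih =>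
    have ih' := ih fun b hb => h b (List.mem_cons_of_mem _ hb)
    have hx := h x List.mem_cons_self
    by_cases h0 : I x = 0
    · have : ∀ y : Fin 3, y = min 2 y := by decide
      simp only [negValue, List.map_cons, List.foldr_cons, h0] at ih' ⊢
      rw [List.filter_cons_of_neg (by simp [h0]), ih']
      exact this _
    · have h1 : I x = 1 := by
        revert hx h0
        generalize I x = y
        revert y
        decide
      simp only [negValue, List.map_cons, List.foldr_cons, h1] at ih' ⊢
      rw [List.filter_cons_of_pos (by simp [h1]), ← ih']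
      rfl

theorem negValue_zero (I : Interp L) (l : List (Atom L Empty)) (h : ∃ b ∈ l, I b = 2) :
    negValue I l = 0 := by
  induction l with
  | nil => simp at h
  | cons x l ih =>
    obtain ⟨b, hb, h2⟩ := h
    have z1 : ∀ y : Fin 3, min (0 : Fin 3) y = 0 := by decide
    have z2 : ∀ y : Fin 3, min y (0 : Fin 3) = 0 := by decide
    rcases List.mem_cons.1 hb with rfl | hb
    · simp only [negValue, List.map_cons, List.foldr_cons, h2]
      exact z1 _
    · have := ih ⟨b, hb, h2⟩
      simp only [negValue, List.map_cons, List.foldr_cons] at this ⊢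
      rw [this]
      exact z2 _

/-- Models of the reduct, described without deleting anything. -/
theorem isModel_iff (P : Set (Rule L ℕ)) (I J : Interp L) :
    IsModel (reduct P I) J ↔
      ∀ g ∈ ground P, min (bodyValue J (g.pos.map some)) (negValue I g.neg) ≤ J g.head := by
  constructor
  · intro h g hg
    by_cases h2 : ∃ b ∈ g.neg, I b = 2
    · rw [negValue_zero I _ h2]
      exact (min_le_right _ _).trans (Fin.zero_le _)
    · have h2' : ∀ b ∈ g.neg, I b ≠ 2 := fun b hb hb2 => h2 ⟨b, hb, hb2⟩
      have := h _ ⟨g, hg, h2', rfl⟩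
      rw [bodyValue_append, negValue_eq I J _ h2'] at this
      exact this
  · rintro h q ⟨g, hg, h2, rfl⟩
    have := h g hg
    rw [← negValue_eq I J _ h2, ← bodyValue_append] at this
    exact this

end General

/-- The function symbols: the constant `0` and the unary `s`. -/
inductive Fn : ℕ → Type
  | zero : Fn 0
  | succ : Fn 1

/-- The predicate symbols. -/
inductive Pd : ℕ → Type
  | c : Pd 1
  | d : Pd 1
  | r : Pd 1
  | q : Pd 1
  | z : Pd 1

/-- The language of the program. -/
def Lng : FirstOrder.Language.{0, 0} := ⟨Fn, Pd⟩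

/-- The successor of a term. -/
def sc {V : Type} (t : Lng.Term V) : Lng.Term V := Term.func (l := 1) Fn.succ fun _ => t

/-- The atom `p(t)`. -/
def atm {V : Type} (p : Pd 1) (t : Lng.Term V) : Atom Lng V := ⟨1, p, fun _ => t⟩

/-- The variable `X`. -/
def X : Lng.Term ℕ := Term.var 0

/-- The program. -/
def prog : Set (Rule Lng ℕ) :=
  {⟨atm .c X, [], [atm .d X]⟩, ⟨atm .d X, [], [atm .c X]⟩, ⟨atm .d X, [atm .r X], []⟩,
    ⟨atm .r (sc X), [atm .r X], []⟩, ⟨atm .r (sc X), [atm .c X], []⟩,
    ⟨atm .q X, [atm .q (sc X)], []⟩, ⟨atm .q X, [atm .c X], []⟩,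
    ⟨atm .z X, [], [atm .z X, atm .q X]⟩}

/-- Numerals. -/
def num : ℕ → Lng.Term Empty
  | 0 => Term.func (l := 0) Fn.zero Fin.elim0
  | n + 1 => sc (num n)

theorem exists_num (t : Lng.Term Empty) : ∃ n, num n = t := by
  induction t with
  | var x => exact x.elim
  | func f ts ih =>
    cases f with
    | zero => exact ⟨0, by simp only [num]; congr 1; funext i; exact i.elim0⟩
    | succ =>
      obtain ⟨n, hn⟩ := ih 0
      refine ⟨n + 1, ?_⟩
      simp only [num, sc, hn]
      congr 1
      funext i
      rw [Subsingleton.elim i 0]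

theorem num_inj : ∀ m n : ℕ, num m = num n → m = n
  | 0, 0, _ => rfl
  | 0, n + 1, h => by simp [num, sc] at h
  | m + 1, 0, h => by simp [num, sc] at h
  | m + 1, n + 1, h => by
      simp only [num, sc, Term.func.injEq] at h
      have := congrFun (eq_of_heq h.2.2) 0
      rw [num_inj m n this]

/-- The ground atom `p(sⁿ(0))`. -/
def ga (p : Pd 1) (n : ℕ) : Atom Lng Empty := atm p (num n)

theorem exists_ga (a : Atom Lng Empty) : ∃ p n, a = ga p n := by
  obtain ⟨k, p, ts⟩ := a
  have key : ∀ (p : Pd 1) (ts : Fin 1 → Lng.Term Empty),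
      ∃ p' n, (⟨1, p, ts⟩ : Atom Lng Empty) = ga p' n := by
    intro p ts
    obtain ⟨n, hn⟩ := exists_num (ts 0)
    refine ⟨p, n, ?_⟩
    simp only [ga, atm, hn]
    congr 1
    funext i
    rw [Subsingleton.elim i 0]
  cases p
  · exact key .c ts
  · exact key .d ts
  · exact key .r ts
  · exact key .q ts
  · exact key .z ts

theorem ga_inj (p p' : Pd 1) (n n' : ℕ) (h : ga p n = ga p' n') : p = p' ∧ n = n' := by
  simp only [ga, atm, Atom.mk.injEq, heq_eq_eq, true_and] at h
  exact ⟨h.1, num_inj _ _ (congrFun h.2 0)⟩

/-- The value of the positive body with one atom. -/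
theorem bodyValue_one (J : Interp Lng) (a : Atom Lng Empty) :
    bodyValue J ([a].map some) = J a := by
  have : ∀ y : Fin 3, min y 2 = y := by decide
  exact this _

theorem bodyValue_nil (J : Interp Lng) :
    bodyValue J (([] : List (Atom Lng Empty)).map some) = 2 := rfl

theorem negValue_nil (I : Interp Lng) : negValue I [] = 2 := rfl

theorem negValue_one (I : Interp Lng) (a : Atom Lng Empty) : negValue I [a] = (I a).rev := by
  have : ∀ y : Fin 3, min y 2 = y := by decide
  exact this _

theorem negValue_two (I : Interp Lng) (a b : Atom Lng Empty) :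
    negValue I [a, b] = min (I a).rev (I b).rev := by
  have : ∀ x y : Fin 3, min x (min y 2) = min x y := by decide
  exact this _ _

theorem min_two_left (x : Fin 3) : min 2 x = x := by
  revert x
  decide

theorem min_two_right (x : Fin 3) : min x 2 = x := by
  revert x
  decide

/-- The models of the reduct of the program. -/
theorem model_iff (I J : Interp Lng) : IsModel (reduct prog I) J ↔ ∀ n,
    (I (ga .d n)).rev ≤ J (ga .c n) ∧ (I (ga .c n)).rev ≤ J (ga .d n) ∧
    J (ga .r n) ≤ J (ga .d n) ∧ J (ga .r n) ≤ J (ga .r (n + 1)) ∧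
    J (ga .c n) ≤ J (ga .r (n + 1)) ∧ J (ga .q (n + 1)) ≤ J (ga .q n) ∧
    J (ga .c n) ≤ J (ga .q n) ∧
    min (I (ga .z n)).rev (I (ga .q n)).rev ≤ J (ga .z n) := by
  rw [isModel_iff]
  have hs : ∀ (p : Pd 1) (θ : ℕ → Lng.Term Empty), (atm p X).subst θ = atm p (θ 0) :=
    fun p θ => rfl
  have hs' : ∀ (p : Pd 1) (θ : ℕ → Lng.Term Empty), (atm p (sc X)).subst θ = atm p (sc (θ 0)) :=
    fun p θ => rfl
  constructor
  · intro h n
    have h' : ∀ r ∈ prog, min (bodyValue J ((r.subst fun _ => num n).pos.map some))
        (negValue I (r.subst fun _ => num n).neg) ≤ J (r.subst fun _ => num n).head :=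
      fun r hr => h _ ⟨r, hr, _, rfl⟩
    simp only [prog, Set.mem_insert_iff, Set.mem_singleton_iff, forall_eq_or_imp, forall_eq,
      Rule.subst, List.map_cons, List.map_nil, hs, hs'] at h'
    obtain ⟨h1, h2, h3, h4, h5, h6, h7, h8⟩ := h'
    simp only [bodyValue, List.map_cons, List.map_nil, List.foldr_nil, List.foldr_cons,
      negValue_nil, negValue_one, negValue_two, min_two_left, min_two_right,
      Option.elim_some] at h1 h2 h3 h4 h5 h6 h7 h8
    exact ⟨h1, h2, h3, h4, h5, h6, h7, h8⟩
  · rintro h g ⟨r, hr, θ, rfl⟩
    obtain ⟨n, hn⟩ := exists_num (θ 0)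
    obtain ⟨h1, h2, h3, h4, h5, h6, h7, h8⟩ := h n
    simp only [prog, Set.mem_insert_iff, Set.mem_singleton_iff] at hr
    rcases hr with rfl | rfl | rfl | rfl | rfl | rfl | rfl | rfl <;>
      simp only [Rule.subst, List.map_cons, List.map_nil, hs, hs', ← hn, bodyValue,
        List.foldr_nil, List.foldr_cons, negValue_nil, negValue_one, negValue_two, min_two_left,
        min_two_right, Option.elim_some]
    · exact h1
    · exact h2
    · exact h3
    · exact h4
    · exact h5
    · exact h6
    · exact h7
    · exact h8

/-- Interpretations given by their values on the atoms `p(sⁿ(0))`. -/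
noncomputable def mk (F : Pd 1 → ℕ → Fin 3) : Interp Lng := fun a =>
  F (Classical.choose (exists_ga a)) (Classical.choose (Classical.choose_spec (exists_ga a)))

theorem mk_ga (F : Pd 1 → ℕ → Fin 3) (p : Pd 1) (n : ℕ) : mk F (ga p n) = F p n := by
  have h := Classical.choose_spec (Classical.choose_spec (exists_ga (ga p n)))
  obtain ⟨h1, h2⟩ := ga_inj _ _ _ _ h
  exact (congr (congrArg F h1) h2).symm

/-- The values of the stable partial model in which `c(sᵐ(0))` is true. -/
def U (m : ℕ) : Pd 1 → ℕ → Fin 3
  | .c, n => if n = m then 2 else 0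
  | .d, n => if n = m then 0 else 2
  | .r, n => if m < n then 2 else 0
  | .q, n => if n ≤ m then 2 else 0
  | .z, n => if m < n then 1 else 0

theorem U_stable (m : ℕ) : IsStablePartial prog (mk (U m)) := by
  constructor
  · rw [Set.mem_ofPred_eq, model_iff]
    intro n
    simp only [mk_ga, U]
    rcases lt_trichotomy n m with h | h | h
    · have e1 : n ≠ m := h.ne
      have e2 : ¬ m < n := by omega
      have e3 : ¬ m < n + 1 := by omega
      have e4 : n ≤ m := by omega
      have e5 : n + 1 ≤ m := by omega
      simp only [e1, e2, e3, e4, e5, if_true, if_false]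
      decide
    · subst h
      simp
    · have e1 : n ≠ m := h.ne'
      have e2 : m < n := by omega
      have e3 : m < n + 1 := by omega
      have e4 : ¬ n ≤ m := by omega
      have e5 : ¬ n + 1 ≤ m := by omega
      simp only [e1, e2, e3, e4, e5, if_true, if_false]
      decide
  · intro J hJ
    rw [Set.mem_ofPred_eq, model_iff] at hJ
    simp only [mk_ga] at hJ
    have t0 : ∀ x : Fin 3, 0 ≤ x := by decide
    have t2 : ∀ x y : Fin 3, x = 2 → x ≤ y → y = 2 := by decide
    have hc : J (ga .c m) = 2 := by
      have := (hJ m).1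
      simp only [U, if_true] at this
      exact t2 _ _ (by decide) this
    have hr : ∀ n, m < n → J (ga .r n) = 2 := by
      intro n
      induction n with
      | zero => intro h; omega
      | succ n ih =>
        intro h
        rcases Nat.lt_succ_iff_lt_or_eq.1 h with h' | h'
        · exact t2 _ _ (ih h') (hJ n).2.2.2.1
        · subst h'
          exact t2 _ _ hc (hJ m).2.2.2.2.1
    have hq : ∀ k, k ≤ m → J (ga .q (m - k)) = 2 := by
      intro k
      induction k with
      | zero => intro _; exact t2 _ _ hc (hJ m).2.2.2.2.2.2.1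
      | succ k ih =>
        intro h
        have h1 := ih (by omega)
        have h2 := (hJ (m - (k + 1))).2.2.2.2.2.1
        have h3 : m - (k + 1) + 1 = m - k := by omega
        rw [h3] at h2
        exact t2 _ _ h1 h2
    intro a
    obtain ⟨p, n, rfl⟩ := exists_ga a
    rw [mk_ga]
    cases p with
    | c =>
      by_cases h : n = m
      · subst h
        rw [hc]
        simp only [U, if_true]
        exact le_refl _
      · simp only [U, h, if_false]
        exact t0 _
    | d =>
      by_cases h : n = m
      · simp only [U, h, if_true]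
        exact t0 _
      · have := (hJ n).2.1
        simp only [U, h, if_false] at this ⊢
        exact this
    | r =>
      by_cases h : m < n
      · rw [hr n h]
        simp only [U, h, if_true]
        exact le_refl _
      · simp only [U, h, if_false]
        exact t0 _
    | q =>
      by_cases h : n ≤ m
      · have := hq (m - n) (by omega)
        rw [show m - (m - n) = n by omega] at this
        rw [this]
        simp only [U, h, if_true]
        exact le_refl _
      · simp only [U, h, if_false]
        exact t0 _
    | z =>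
      by_cases h : m < n
      · have := (hJ n).2.2.2.2.2.2.2
        have h' : ¬ n ≤ m := by omega
        simp only [U, h, h', if_true, if_false] at this ⊢
        exact this
      · simp only [U, h, if_false]
        exact t0 _

theorem undef_U (m : ℕ) : undef (mk (U m)) = {a | ∃ n, m < n ∧ a = ga .z n} := by
  ext a
  obtain ⟨p, n, rfl⟩ := exists_ga a
  simp only [undef, Set.mem_ofPred_eq, mk_ga]
  constructor
  · intro h
    cases p with
    | c => simp only [U] at h; split_ifs at h <;> exact absurd h (by decide)
    | d => simp only [U] at h; split_ifs at h <;> exact absurd h (by decide)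
    | r => simp only [U] at h; split_ifs at h <;> exact absurd h (by decide)
    | q => simp only [U] at h; split_ifs at h <;> exact absurd h (by decide)
    | z =>
      simp only [U] at h
      split_ifs at h with h'
      · exact ⟨n, h', rfl⟩
      · exact absurd h (by decide)
  · rintro ⟨k, hk, h⟩
    obtain ⟨rfl, rfl⟩ := ga_inj _ _ _ _ h
    simp only [U, hk, if_true]

theorem c_le (I : Interp Lng) (hI : IsStablePartial prog I) (n : ℕ) :
    I (ga .c n) ≤ (I (ga .d n)).rev := by
  have hm := (model_iff I I).1 hI.1
  let F : Pd 1 → ℕ → Fin 3 := fun p k => match p with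
    | .c => (I (ga .d k)).rev
    | p => I (ga p k)
  have hJ : IsModel (reduct prog I) (mk F) := by
    rw [model_iff]
    intro k
    obtain ⟨h1, h2, h3, h4, h5, h6, h7, h8⟩ := hm k
    simp only [mk_ga, F]
    exact ⟨le_refl _, h2, h3, h4, h1.trans h5, h6, h1.trans h7, h8⟩
  have := hI.2 hJ (ga .c n)
  rwa [mk_ga] at this

theorem z_le (I : Interp Lng) (hI : IsStablePartial prog I) (n : ℕ) :
    I (ga .z n) ≤ min (I (ga .z n)).rev (I (ga .q n)).rev := by
  have hm := (model_iff I I).1 hI.1
  let F : Pd 1 → ℕ → Fin 3 := fun p k => match p with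
    | .z => min (I (ga .z k)).rev (I (ga .q k)).rev
    | p => I (ga p k)
  have hJ : IsModel (reduct prog I) (mk F) := by
    rw [model_iff]
    intro k
    obtain ⟨h1, h2, h3, h4, h5, h6, h7, h8⟩ := hm k
    simp only [mk_ga, F]
    exact ⟨h1, h2, h3, h4, h5, h6, h7, le_refl _⟩
  have := hI.2 hJ (ga .z n)
  rwa [mk_ga] at this

theorem z_eq (I : Interp Lng) (hI : IsStablePartial prog I) (n : ℕ) (h : I (ga .q n) ≠ 2) :
    I (ga .z n) = 1 := by
  have h1 := z_le I hI n
  have h2 := ((model_iff I I).1 hI.1 n).2.2.2.2.2.2.2
  revert h h1 h2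
  generalize I (ga .q n) = x
  generalize I (ga .z n) = y
  revert x y
  decide

theorem q_ne (I : Interp Lng) (hI : IsStablePartial prog I) (m : ℕ)
    (h : ∀ k, m ≤ k → I (ga .c k) ≠ 2) (n : ℕ) (hn : m ≤ n) : I (ga .q n) ≠ 2 := by
  have hm := (model_iff I I).1 hI.1
  let F : Pd 1 → ℕ → Fin 3 := fun p k => match p with
    | .q => if m ≤ k then min (I (ga .q k)) 1 else I (ga .q k)
    | p => I (ga p k)
  have hJ : IsModel (reduct prog I) (mk F) := by
    rw [model_iff]
    intro k
    obtain ⟨h1, h2, h3, h4, h5, h6, h7, h8⟩ := hm k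
    simp only [mk_ga, F]
    refine ⟨h1, h2, h3, h4, h5, ?_, ?_, h8⟩
    · by_cases hk : m ≤ k
      · have hk' : m ≤ k + 1 := by omega
        simp only [hk, hk', if_true]
        exact min_le_min h6 (le_refl _)
      · by_cases hk' : m ≤ k + 1
        · simp only [hk, hk', if_true, if_false]
          exact (min_le_left _ _).trans h6
        · simp only [hk, hk', if_false]
          exact h6
    · by_cases hk : m ≤ k
      · have hc := h k hk
        simp only [hk, if_true]
        revert hc h7
        generalize I (ga .c k) = x
        generalize I (ga .q k) = y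
        revert x y
        decide
      · simp only [hk, if_false]
        exact h7
  have := hI.2 hJ (ga .q n)
  rw [mk_ga] at this
  simp only [F, hn, if_true] at this
  have t : ∀ y : Fin 3, y ≤ min y 1 → y ≠ 2 := by decide
  exact t _ this

theorem exists_bound (I : Interp Lng) (hI : IsStablePartial prog I) :
    ∃ m, ∀ k, m ≤ k → I (ga .c k) ≠ 2 := by
  by_cases h : ∃ m, I (ga .c m) = 2
  · obtain ⟨m, hc⟩ := h
    have hm := (model_iff I I).1 hI.1
    have t2 : ∀ x y : Fin 3, x = 2 → x ≤ y → y = 2 := by decide
    have hr : ∀ n, m < n → I (ga .r n) = 2 := by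
      intro n
      induction n with
      | zero => intro h; omega
      | succ n ih =>
        intro h
        rcases Nat.lt_succ_iff_lt_or_eq.1 h with h' | h'
        · exact t2 _ _ (ih h') (hm n).2.2.2.1
        · subst h'
          exact t2 _ _ hc (hm m).2.2.2.2.1
    refine ⟨m + 1, fun k hk => ?_⟩
    have hd := t2 _ _ (hr k (by omega)) (hm k).2.2.1
    have := c_le I hI k
    rw [hd] at this
    revert this
    generalize I (ga .c k) = y
    revert y
    decide
  · exact ⟨0, fun k _ hk => h ⟨k, hk⟩⟩

/-- Every stable partial model is strictly improved by another one. -/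
theorem improve (I : Interp Lng) (hI : IsStablePartial prog I) :
    ∃ J, IsStablePartial prog J ∧ undef J ⊂ undef I := by
  obtain ⟨m, hm⟩ := exists_bound I hI
  have hz : ∀ n, m ≤ n → I (ga .z n) = 1 := fun n hn => z_eq I hI n (q_ne I hI m hm n hn)
  refine ⟨mk (U m), U_stable m, ?_⟩
  rw [undef_U]
  constructor
  · rintro a ⟨n, hn, rfl⟩
    exact hz n (by omega)
  · intro h
    obtain ⟨n, hn, he⟩ := h (hz m (le_refl _) : ga .z m ∈ undef I)
    have := (ga_inj _ _ _ _ he).2
    omega

instance : Finite (Σ n, Lng.Functions n) := by
  have : Function.Surjective (fun b : Bool => match b with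
      | true => (⟨0, Fn.zero⟩ : Σ n, Lng.Functions n)
      | false => ⟨1, Fn.succ⟩) := by
    rintro ⟨n, f⟩
    cases f with
    | zero => exact ⟨true, rfl⟩
    | succ => exact ⟨false, rfl⟩
  exact Finite.of_surjective _ this

instance : Finite (Σ n, Lng.Relations n) := by
  have : Function.Surjective (fun b : Fin 5 => match b with
      | 0 => (⟨1, Pd.c⟩ : Σ n, Lng.Relations n)
      | 1 => ⟨1, Pd.d⟩
      | 2 => ⟨1, Pd.r⟩
      | 3 => ⟨1, Pd.q⟩
      | 4 => ⟨1, Pd.z⟩) := by
    rintro ⟨n, f⟩
    cases f with
    | c => exact ⟨0, rfl⟩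
    | d => exact ⟨1, rfl⟩
    | r => exact ⟨2, rfl⟩
    | q => exact ⟨3, rfl⟩
    | z => exact ⟨4, rfl⟩
  exact Finite.of_surjective _ this

theorem ivf : ∀ r ∈ prog, r.InternalVariableFree := by
  have h1 : ∀ p : Pd 1, (atm p X).vars = {0} := by
    intro p
    ext x
    simp [Atom.vars, atm, X, Lng]
  have h2 : ∀ p : Pd 1, (atm p (sc X)).vars = {0} := by
    intro p
    ext x
    simp [Atom.vars, atm, X, sc, Lng]
  intro r hr
  simp only [prog, Set.mem_insert_iff, Set.mem_singleton_iff] at hr
  rcases hr with rfl | rfl | rfl | rfl | rfl | rfl | rfl | rfl <;>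
    simp [Rule.InternalVariableFree, h1, h2]

/-- **There is an internal-variable-free normal logic program without L-stable model**: there are
a first-order language with finitely many function symbols (constants included) and predicate
symbols and a finite internal-variable-free normal logic program `P` in it, such that no
three-valued interpretation is an L-stable model of `P`; moreover there is a ground term, so the
Herbrand universe is nonempty. -/
theorem result : ∃ (L : FirstOrder.Language.{0, 0}) (P : Set (Rule L ℕ)),
    Finite (Σ n, L.Functions n) ∧ Finite (Σ n, L.Relations n) ∧ Nonempty (L.Term Empty) ∧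
    P.Finite ∧ (∀ r ∈ P, r.InternalVariableFree) ∧ ∀ I : Interp L, ¬ IsLStable P I := by
  refine ⟨Lng, prog, inferInstance, inferInstance, ⟨num 0⟩, ?_, ivf, ?_⟩
  · unfold prog
    exact Set.toFinite _
  · rintro I ⟨hI, hmin⟩
    obtain ⟨J, hJ, hlt⟩ := improve I hI
    exact hmin J hJ hlt

end Pool.Agent.Results.MP_718be6_lc.NoLStable
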